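import Pool.Agent.Helper5.KM.Defs

/-! BASIC: elementary facts for the K-process theorem. -/

open MeasureTheory Filter Topology

namespace Pool.Agent.Helper5.KM

variable {b : ℕ}

theorem norm_e (t : ℝ) : ‖e t‖ = 1 := by
  unfold e; exact Complex.norm_exp_ofReal_mul_I _

theorem e_add (s t : ℝ) : e (s + t) = e s * e t := by
  unfold e
  rw [← Complex.exp_add]
  congr 1
  push_cast
  ring

theorem e_zero : e 0 = 1 := by
  unfold e; simp

theorem e_intCast (n : ℤ) : e (n : ℝ) = 1 := by
  unfold e
  rw [Complex.exp_eq_one_iff]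
  exact ⟨n, by push_cast; ring⟩

theorem e_int (t : ℝ) (n : ℤ) : e (t + n) = e t := by
  rw [e_add, e_intCast, mul_one]

theorem e_continuous : Continuous e := by
  unfold e; fun_prop

theorem norm_e_sub_le (s t : ℝ) : ‖e s - e t‖ ≤ 2 * Real.pi * |s - t| := by
  have h1 : e s - e t = e t * (e (s - t) - 1) := by
    rw [mul_sub, ← e_add, mul_one]; congr 2; ring
  rw [h1, norm_mul, norm_e, one_mul]
  unfold e
  have h2 := Real.norm_exp_I_mul_ofReal_sub_one_le (x := 2 * Real.pi * (s - t))
  rw [mul_comm Complex.I] at h2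
  refine h2.trans ?_
  rw [Real.norm_eq_abs, abs_mul, abs_of_pos (by positivity : 0 < 2 * Real.pi)]

theorem sh_sh (j k : ℤ) (y : Sq b) : sh j (sh k y) = sh (j + k) y := by
  funext n; unfold sh; congr 1; ring

theorem sh_zero (y : Sq b) : sh 0 y = y := by
  funext n; unfold sh; congr 1; ring

theorem measurable_sh (k : ℤ) : Measurable (sh k : Sq b → Sq b) :=
  measurable_pi_lambda _ fun n => measurable_pi_apply (n + k)

/-- the shift as a measurable equivalence -/
def shEquiv (k : ℤ) : Sq b ≃ᵐ Sq b where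
  toFun := sh k
  invFun := sh (-k)
  left_inv y := by rw [sh_sh, neg_add_cancel, sh_zero]
  right_inv y := by rw [sh_sh, add_neg_cancel, sh_zero]
  measurable_toFun := measurable_sh k
  measurable_invFun := measurable_sh (-k)

theorem mp_sh {μ : Measure (Sq b)} (h : MeasurePreserving (sh 1) μ μ) (k : ℤ) :
    MeasurePreserving (sh k) μ μ := by
  have hnat : ∀ n : ℕ, MeasurePreserving (sh (n : ℤ) : Sq b → Sq b) μ μ := by
    intro n
    induction n with
    | zero =>
      have : (sh ((0 : ℕ) : ℤ) : Sq b → Sq b) = id := funext fun y => sh_zero y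
      rw [this]; exact MeasurePreserving.id μ
    | succ n ih =>
      have : (sh ((n + 1 : ℕ) : ℤ) : Sq b → Sq b) = sh 1 ∘ sh (n : ℤ) := by
        funext y; simp only [Function.comp, sh_sh]; congr 1; push_cast; ring
      rw [this]; exact h.comp ih
  rcases Int.eq_nat_or_neg k with ⟨n, rfl | rfl⟩
  · exact hnat n
  · exact MeasurePreserving.symm (shEquiv (b := b) (n : ℤ)) (hnat n)

theorem past_le (n : ℤ) : past b n ≤ MeasurableSpace.pi := by
  unfold past
  rw [← measurable_iff_comap_le]
  exact measurable_pi_lambda _ fun i => measurable_pi_apply _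

theorem measurable_coord {i n : ℤ} (h : i < n) : Measurable[past b n] (fun y : Sq b => y i) := by
  have h1 : Measurable[past b n] (fun (y : Sq b) (i : Set.Iio n) => y i) :=
    comap_measurable _
  exact (measurable_pi_apply (⟨i, h⟩ : Set.Iio n)).comp h1

theorem measurable_of_coord {β : Type} {m : MeasurableSpace β} {n : ℤ} {f : β → Sq b}
    (h : ∀ i : ℤ, i < n → Measurable (fun x => f x i)) : Measurable[m, past b n] f := by
  unfold past
  rw [@measurable_comap_iff]
  exact measurable_pi_lambda _ fun i => h i i.2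

theorem past_mono {m n : ℤ} (h : m ≤ n) : past b m ≤ past b n := by
  have h1 : Measurable[past b n, past b m] (id : Sq b → Sq b) :=
    @measurable_of_coord b (Sq b) (past b n) m id fun i hi =>
      measurable_coord (lt_of_lt_of_le hi h)
  intro s hs
  exact h1 hs

theorem past_comap (m n : ℤ) : (past b n).comap (sh m) = past b (n + m) := by
  apply le_antisymm
  · rw [← measurable_iff_comap_le]
    exact @measurable_of_coord b (Sq b) (past b (n + m)) n (sh m) fun i hi =>
      measurable_coord (by linarith)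
  · have h1 : Measurable[(past b n).comap (sh m), past b (n + m)] (id : Sq b → Sq b) := by
      refine @measurable_of_coord b (Sq b) ((past b n).comap (sh m)) (n + m) id fun i hi => ?_
      have h2 : Measurable[(past b n).comap (sh m), past b n] (sh m : Sq b → Sq b) :=
        comap_measurable _
      have h3 := (measurable_coord (b := b) (show i - m < n by linarith)).comp h2
      have h4 : ((fun y : Sq b => y (i - m)) ∘ (sh m : Sq b → Sq b)) = fun y => y i := by
        funext y; simp [sh]
      rw [h4] at h3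
      exact h3
    intro s hs
    exact h1 hs

theorem measurable_sh_past (m n : ℤ) : Measurable[past b (n + m), past b n] (sh m : Sq b → Sq b) := by
  rw [← past_comap]; exact comap_measurable _

theorem measurable_Bk_nat (k : ℕ) : Measurable[past b k] (fun y : Sq b => Bk k y) := by
  unfold Bk
  refine Finset.measurable_sum _ fun i hi => ?_
  have h1 : Measurable[past b k] (fun y : Sq b => y (i : ℤ)) :=
    measurable_coord (by have := Finset.mem_range.1 hi; exact_mod_cast this)
  have h2 : Measurable (fun d : Fin b => (d : ℕ) * b ^ (k - 1 - i)) := measurable_of_finite _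
  exact h2.comp h1

theorem measurable_Bk (k : ℕ) : Measurable[past b k] (fun y : Sq b => (Bk k y : ℝ)) := by
  have h : Measurable (fun n : ℕ => (n : ℝ)) := measurable_from_top
  exact h.comp (measurable_Bk_nat k)

theorem summable_val (hb : 2 ≤ b) (y : Sq b) :
    Summable fun j : ℕ => ((y (j : ℤ) : ℕ) : ℝ) / (b : ℝ) ^ (j + 1) := by
  have hb1 : (1 : ℝ) < b := by exact_mod_cast (by omega : 1 < b)
  have h1 : Summable fun j : ℕ => (1 / (b : ℝ)) ^ j :=
    summable_geometric_of_lt_one (by positivity) (by rw [div_lt_one (by linarith)]; exact hb1)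
  refine Summable.of_nonneg_of_le (fun j => by positivity) (fun j => ?_) h1
  have h2 : ((y (j : ℤ) : ℕ) : ℝ) ≤ b := by exact_mod_cast (y (j : ℤ)).2.le
  rw [one_div, inv_pow, div_le_iff₀ (by positivity), pow_succ]
  calc ((y (j : ℤ) : ℕ) : ℝ) ≤ b := h2
    _ = ((b : ℝ) ^ j)⁻¹ * ((b : ℝ) ^ j * b) := by field_simp

theorem val_nonneg (y : Sq b) : 0 ≤ val y := tsum_nonneg fun j => by positivity

theorem val_le_one (hb : 2 ≤ b) (y : Sq b) : val y ≤ 1 := by
  have hb1 : (1 : ℝ) < b := by exact_mod_cast (by omega : 1 < b)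
  have h0 : HasSum (fun j : ℕ => ((b : ℝ) - 1) / b * (1 / (b : ℝ)) ^ j)
      (((b : ℝ) - 1) / b * (1 - 1 / (b : ℝ))⁻¹) :=
    (hasSum_geometric_of_lt_one (by positivity) (by rw [div_lt_one (by linarith)]; exact hb1)).mul_left _
  have h1 : ((b : ℝ) - 1) / b * (1 - 1 / (b : ℝ))⁻¹ = 1 := by
    have h2 : (b : ℝ) - 1 ≠ 0 := by linarith
    have h3 : (1 - 1 / (b : ℝ)) = ((b : ℝ) - 1) / b := by field_simp
    rw [h3]
    exact mul_inv_cancel₀ (div_ne_zero h2 (by linarith))
  rw [h1] at h0
  rw [← h0.tsum_eq]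
  unfold val
  refine (summable_val hb y).tsum_le_tsum (fun j => ?_) h0.summable
  have h2 : ((y (j : ℤ) : ℕ) : ℝ) ≤ b - 1 := by
    have h5 := (y (j : ℤ)).2
    have h4 : (y (j : ℤ) : ℕ) + 1 ≤ b := h5
    have h3 : ((y (j : ℤ) : ℕ) : ℝ) + 1 ≤ b := by exact_mod_cast h4
    linarith
  have h3 : ((b : ℝ) - 1) / b * (1 / (b : ℝ)) ^ j = ((b : ℝ) - 1) / (b : ℝ) ^ (j + 1) := by
    rw [one_div, inv_pow, pow_succ]; field_simp
  rw [h3]
  gcongr

theorem val_succ (hb : 2 ≤ b) (y : Sq b) : (b : ℝ) * val y = (y 0 : ℕ) + val (sh 1 y) := by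
  have hb0 : (b : ℝ) ≠ 0 := by
    have : (0 : ℝ) < b := by exact_mod_cast (by omega : 0 < b)
    exact this.ne'
  have h1 := (summable_val hb y).sum_add_tsum_nat_add 1
  unfold val
  rw [← h1, mul_add, ← tsum_mul_left]
  congr 1
  · simp; field_simp
  · refine tsum_congr fun j => ?_
    have : y (((j + 1 : ℕ)) : ℤ) = sh 1 y (j : ℤ) := by unfold sh; congr 1
    rw [this, pow_succ _ (j + 1)]
    field_simp

theorem Bk_zero (y : Sq b) : Bk 0 y = 0 := by simp [Bk]

theorem Bk_add (l k : ℕ) (y : Sq b) : Bk (k + l) y = b ^ l * Bk k y + Bk l (sh k y) := by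
  unfold Bk
  rw [Finset.sum_range_add, Finset.mul_sum]
  congr 1
  · refine Finset.sum_congr rfl fun i hi => ?_
    have hi' := Finset.mem_range.1 hi
    have : k + l - 1 - i = l + (k - 1 - i) := by omega
    rw [this, pow_add]; ring
  · refine Finset.sum_congr rfl fun i hi => ?_
    have hi' := Finset.mem_range.1 hi
    have h1 : k + l - 1 - (k + i) = l - 1 - i := by omega
    have h2 : y (((k + i : ℕ)) : ℤ) = sh (k : ℤ) y (i : ℤ) := by
      unfold sh; congr 1; push_cast; ring
    rw [h1, h2]

theorem Bk_one (y : Sq b) : Bk 1 y = (y 0 : ℕ) := by simp [Bk]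

theorem pow_mul_val (hb : 2 ≤ b) (k : ℕ) (y : Sq b) :
    (b : ℝ) ^ k * val y = Bk k y + val (sh k y) := by
  induction k with
  | zero => simp [Bk_zero, sh_zero]
  | succ k ih =>
    have h1 := val_succ hb (sh k y)
    rw [sh_sh] at h1
    have h2 := Bk_add 1 k y
    rw [h2, pow_succ, mul_comm ((b : ℝ) ^ k), mul_assoc, ih, mul_add, h1, Bk_one]
    push_cast
    rw [show (1 : ℤ) + (k : ℤ) = (k : ℤ) + 1 by ring, pow_one]
    ring

theorem Bk_eq_num (k : ℕ) (y : Sq b) : Bk k y = num (blk 0 k y) := by
  unfold Bk num blk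
  rw [Finset.sum_range]
  refine Finset.sum_congr rfl fun i _ => ?_
  rw [zero_add]

theorem measurable_val : Measurable (val : Sq b → ℝ) := by
  unfold val
  refine Measurable.tsum fun j => ?_
  have h2 : Measurable (fun d : Fin b => ((d : ℕ) : ℝ) / (b : ℝ) ^ (j + 1)) :=
    measurable_of_finite _
  exact h2.comp (measurable_pi_apply (j : ℤ))

theorem measurable_blk (s : ℤ) (n : ℕ) : Measurable (blk s n : Sq b → Fin n → Fin b) :=
  measurable_pi_lambda _ fun _ => measurable_pi_apply _

theorem measurable_blk_past (s : ℤ) (n : ℕ) (m : ℤ) (h : s + n ≤ m) :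
    Measurable[past b m] (blk s n : Sq b → Fin n → Fin b) := by
  refine @measurable_pi_lambda _ _ _ (past b m) _ _ fun i => ?_
  have : (i : ℕ) < n := i.2
  exact measurable_coord (by omega)

theorem blk_sh (s k : ℤ) (n : ℕ) (y : Sq b) : blk s n (sh k y) = blk (s + k) n y := by
  funext i; unfold blk sh; congr 1; ring

theorem measurable_e : Measurable e := e_continuous.measurable

end Pool.Agent.Helper5.KM
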