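import Mathlib

/-! Definitions for the K-process theorem (normality of `π · y`). -/

open MeasureTheory Filter Topology

namespace Pool.Agent.Helper5.KM

/-- two-sided sequences of base-`b` digits -/
abbrev Sq (b : ℕ) : Type := ℤ → Fin b

/-- the shift by `k` places -/
def sh {b : ℕ} (k : ℤ) (y : Sq b) : Sq b := fun n => y (n + k)

/-- the σ-algebra of the coordinates before time `n` -/
@[reducible] def past (b : ℕ) (n : ℤ) : MeasurableSpace (Sq b) :=
  MeasurableSpace.comap (fun (y : Sq b) (i : Set.Iio n) => y i) MeasurableSpace.pi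

/-- the real number `0.y₀y₁y₂…` in base `b` -/
noncomputable def val {b : ℕ} (y : Sq b) : ℝ := ∑' j : ℕ, ((y (j : ℤ) : ℕ) : ℝ) / (b : ℝ) ^ (j + 1)

/-- the integer with digits `y₀ … y_{k-1}` -/
def Bk {b : ℕ} (k : ℕ) (y : Sq b) : ℕ := ∑ i ∈ Finset.range k, (y (i : ℤ) : ℕ) * b ^ (k - 1 - i)

/-- `e(t) = exp(2πit)` -/
noncomputable def e (t : ℝ) : ℂ := Complex.exp (((2 * Real.pi * t : ℝ) : ℂ) * Complex.I)

/-- a non-constant stationary process with trivial remote past (a K-process) -/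
structure KProc (b : ℕ) (μ : Measure (Sq b)) : Prop where
  stat : MeasurePreserving (sh 1) μ μ
  tail : ∀ A : Set (Sq b), (∀ n : ℤ, MeasurableSet[past b n] A) → μ A = 0 ∨ μ A = 1
  nonconst : ∀ d : Fin b, μ {y | y 0 = d} ≠ 1

/-- irrational and not a Liouville number -/
def Dio (X : ℝ) : Prop := ∃ c : ℝ, 0 < c ∧ ∃ κ : ℕ, ∀ D : ℕ, 0 < D → ∀ p : ℤ,
  c / (D : ℝ) ^ κ ≤ |X * D - p|

/-- the conditional expectation of `e(X B_l) · q ∘ sh l` given the past -/
noncomputable def Qf {b : ℕ} (μ : Measure (Sq b)) (X : ℝ) (q : Sq b → ℂ) (l : ℕ) : Sq b → ℂ :=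
  μ[fun y => e (X * Bk l y) * q (sh l y) | past b 0]

/-- the word of length `n` at place `s` -/
def blk {b : ℕ} (s : ℤ) (n : ℕ) (y : Sq b) : Fin n → Fin b := fun i => y (s + (i : ℕ))

/-- Shannon entropy (natural logarithm) of a finite-valued function -/
noncomputable def ent {b : ℕ} {α : Type} [Fintype α] (μ : Measure (Sq b)) (f : Sq b → α) : ℝ :=
  ∑ a, Real.negMulLog (μ.real (f ⁻¹' {a}))

/-- the integer with digits `z₀ … z_{k-1}` -/
def num {b k : ℕ} (z : Fin k → Fin b) : ℕ := ∑ i : Fin k, (z i : ℕ) * b ^ (k - 1 - (i : ℕ))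

end Pool.Agent.Helper5.KM
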