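import Pool.Agent.Helper5.KM.Basic
import Pool.Graph.R_seed8.H1R3.Det.Weyl
import Pool.Graph.R_seed8.H493R3.Weyl

/-! A Weyl criterion with weights. -/

open MeasureTheory Filter Topology Set

namespace Pool.Agent.Helper5.KM

open Pool.Agent.H1R3.Det (Circ integral_fourier_eq_zero)

/-- weighted averages with the mean removed -/
noncomputable def wav (g : ℕ → ℝ) (x : ℕ → Circ) (h : C(Circ, ℂ)) (M : ℕ) : ℂ :=
  (∑ m ∈ Finset.range M, (g m : ℂ) * (h (x m) - ∫ z : Circ, h z)) / M

theorem integ (h : C(Circ, ℂ)) : Integrable (fun z => h z) (volume : Measure Circ) :=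
  h.continuous.integrable_of_hasCompactSupport (HasCompactSupport.of_compactSpace _)

theorem int_sub_le (h f : C(Circ, ℂ)) : ‖(∫ z : Circ, h z) - ∫ z : Circ, f z‖ ≤ ‖h - f‖ := by
  rw [← integral_sub (integ h) (integ f)]
  calc ‖∫ z : Circ, (h z - f z)‖ ≤ ‖h - f‖ * (volume : Measure Circ).real univ := by
        apply norm_integral_le_of_norm_le_const
        filter_upwards with z
        exact (h - f).norm_coe_le_norm z
    _ = ‖h - f‖ := by simp [Measure.real]

theorem wav_sub_le {g : ℕ → ℝ} (hg0 : ∀ n, 0 ≤ g n) (hg1 : ∀ n, g n ≤ 1) (x : ℕ → Circ)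
    (f h : C(Circ, ℂ)) (M : ℕ) : ‖wav g x h M - wav g x f M‖ ≤ 2 * ‖h - f‖ := by
  unfold wav
  rcases Nat.eq_zero_or_pos M with rfl | hM
  · simp
  rw [← sub_div, ← Finset.sum_sub_distrib, norm_div, Complex.norm_natCast]
  rw [div_le_iff₀ (by exact_mod_cast hM)]
  calc ‖∑ m ∈ Finset.range M, ((g m : ℂ) * (h (x m) - ∫ z : Circ, h z) -
        (g m : ℂ) * (f (x m) - ∫ z : Circ, f z))‖
      ≤ ∑ m ∈ Finset.range M, ‖(g m : ℂ) * (h (x m) - ∫ z : Circ, h z) -
        (g m : ℂ) * (f (x m) - ∫ z : Circ, f z)‖ := norm_sum_le _ _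
    _ ≤ ∑ _m ∈ Finset.range M, 2 * ‖h - f‖ := by
        refine Finset.sum_le_sum fun m _ => ?_
        have e1 : (g m : ℂ) * (h (x m) - ∫ z : Circ, h z) - (g m : ℂ) * (f (x m) - ∫ z : Circ, f z) =
            (g m : ℂ) * ((h (x m) - f (x m)) - ((∫ z : Circ, h z) - ∫ z : Circ, f z)) := by ring
        rw [e1, norm_mul, Complex.norm_real, Real.norm_eq_abs, abs_of_nonneg (hg0 m)]
        have e2 : ‖(h (x m) - f (x m)) - ((∫ z : Circ, h z) - ∫ z : Circ, f z)‖ ≤ 2 * ‖h - f‖ := by
          refine (norm_sub_le _ _).trans ?_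
          have := (h - f).norm_coe_le_norm (x m)
          rw [ContinuousMap.sub_apply] at this
          linarith [int_sub_le h f]
        calc g m * ‖(h (x m) - f (x m)) - ((∫ z : Circ, h z) - ∫ z : Circ, f z)‖
            ≤ 1 * (2 * ‖h - f‖) := mul_le_mul (hg1 m) e2 (norm_nonneg _) zero_le_one
          _ = 2 * ‖h - f‖ := one_mul _
    _ = 2 * ‖h - f‖ * M := by simp [mul_comm]

/-- Weyl criterion with weights, for continuous functions. -/
theorem wweyl {g : ℕ → ℝ} (hg0 : ∀ n, 0 ≤ g n) (hg1 : ∀ n, g n ≤ 1) (x : ℕ → Circ)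
    (hx : ∀ n : ℤ, n ≠ 0 → Tendsto (fun M : ℕ =>
      (∑ m ∈ Finset.range M, (g m : ℂ) * (fourier n (x m) : ℂ)) / M) atTop (𝓝 0))
    (h : C(Circ, ℂ)) : Tendsto (wav g x h) atTop (𝓝 0) := by
  have hmem : ∀ f ∈ (Submodule.span ℂ (range <| @fourier 1)), Tendsto (wav g x f) atTop (𝓝 0) := by
    intro f hf
    induction hf using Submodule.span_induction with
    | mem f hf =>
      obtain ⟨n, rfl⟩ := hf
      by_cases hn : n = 0
      · subst hn
        have hint : ∫ z : Circ, (fourier 0 z : ℂ) = 1 := by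
          simp [Measure.real]
        refine tendsto_const_nhds.congr fun M => ?_
        unfold wav
        rw [hint]
        simp
      · refine (hx n hn).congr fun M => ?_
        unfold wav
        rw [integral_fourier_eq_zero hn]
        simp
    | zero =>
      refine tendsto_const_nhds.congr fun M => ?_
      simp [wav]
    | add f₁ f₂ hf₁ hf₂ ih₁ ih₂ =>
      have hi : ∫ z : Circ, (f₁ + f₂) z = (∫ z : Circ, f₁ z) + ∫ z : Circ, f₂ z := by
        have := integral_add (integ f₁) (integ f₂)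
        simpa using this
      have := ih₁.add ih₂
      rw [add_zero] at this
      refine this.congr fun M => ?_
      unfold wav
      rw [hi, ← add_div, ← Finset.sum_add_distrib]
      congr 1
      refine Finset.sum_congr rfl fun m _ => ?_
      rw [ContinuousMap.add_apply]; ring
    | smul c f hf ihf =>
      have hi : ∫ z : Circ, (c • f) z = c * (∫ z : Circ, f z) := by
        simp [integral_const_mul]
      have := ihf.const_mul c
      rw [mul_zero] at this
      refine this.congr fun M => ?_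
      unfold wav
      rw [hi, ← mul_div_assoc, Finset.mul_sum]
      congr 1
      refine Finset.sum_congr rfl fun m _ => ?_
      rw [ContinuousMap.smul_apply, smul_eq_mul]; ring
  rw [Metric.tendsto_atTop]
  intro ε hε
  have hcl : h ∈ (Submodule.span ℂ (range <| @fourier 1)).topologicalClosure := by
    rw [span_fourier_closure_eq_top]; trivial
  rw [← SetLike.mem_coe, Submodule.topologicalClosure_coe, Metric.mem_closure_iff] at hcl
  obtain ⟨f, hf, hfd⟩ := hcl (ε / 4) (by positivity)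
  obtain ⟨i₀, hi₀⟩ := Metric.tendsto_atTop.1 (hmem f hf) (ε / 4) (by positivity)
  refine ⟨i₀, fun i hi => ?_⟩
  have h1 := hi₀ i hi
  rw [dist_eq_norm, sub_zero] at h1 ⊢
  have h2 := wav_sub_le hg0 hg1 x f h i
  have h4 : ‖h - f‖ < ε / 4 := by rw [← dist_eq_norm]; exact hfd
  have h5 : wav g x h i = (wav g x h i - wav g x f i) + wav g x f i := by ring
  rw [h5]
  refine (norm_add_le _ _).trans_lt ?_
  linarith

open Classical in
/-- Upper bound for the weighted frequency of visits to a closed set. -/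
theorem wclosed {g : ℕ → ℝ} (hg0 : ∀ n, 0 ≤ g n) (hg1 : ∀ n, g n ≤ 1) (x : ℕ → Circ)
    (hx : ∀ n : ℤ, n ≠ 0 → Tendsto (fun M : ℕ =>
      (∑ m ∈ Finset.range M, (g m : ℂ) * (fourier n (x m) : ℂ)) / M) atTop (𝓝 0))
    {E : Set Circ} (hE : IsClosed E) (v : ℝ) (hv : 0 ≤ v) (hEv : volume E ≤ ENNReal.ofReal v)
    (ε : ℝ) (hε : 0 < ε) :
    ∀ᶠ M : ℕ in atTop,
      (∑ m ∈ Finset.range M, g m * ((if x m ∈ E then 1 else 0) - v)) / M < ε := by
  obtain ⟨U, hNU, hUo, hUv⟩ : ∃ U ⊇ E, IsOpen U ∧ volume U < ENNReal.ofReal (v + ε / 2) :=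
    E.exists_isOpen_lt_of_lt _ (by
      refine lt_of_le_of_lt hEv ?_
      exact (ENNReal.ofReal_lt_ofReal_iff (by linarith)).2 (by linarith))
  obtain ⟨f, hf0, hf1, hf01⟩ := exists_continuous_zero_one_of_isClosed hUo.isClosed_compl hE
    (by rw [disjoint_compl_left_iff_subset]; exact hNU)
  let h : C(Circ, ℂ) := ⟨fun x => (f x : ℂ), by fun_prop⟩
  have h1 : ∫ y : Circ, h y = ((∫ y : Circ, f y : ℝ) : ℂ) := by
    simp only [h, ContinuousMap.coe_mk]
    exact integral_ofReal
  have hint : ∫ y : Circ, f y ≤ v + ε / 2 := by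
    have h2 : ∫ y : Circ, f y ≤ ∫ y : Circ, U.indicator (fun _ => (1 : ℝ)) y := by
      apply integral_mono
      · exact f.continuous.integrable_of_hasCompactSupport (HasCompactSupport.of_compactSpace _)
      · exact (integrable_indicator_iff hUo.measurableSet).2 (integrableOn_const (by simp) )
      · intro y
        by_cases hy : y ∈ U
        · simp only [hy, indicator_of_mem]; exact (hf01 y).2
        · simp only [hy, not_false_eq_true, indicator_of_notMem]
          exact le_of_eq (hf0 hy)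
    rw [integral_indicator hUo.measurableSet] at h2
    simp only [integral_const, MeasurableSet.univ, measureReal_restrict_apply, univ_inter,
      smul_eq_mul, mul_one] at h2
    refine h2.trans ?_
    rw [Measure.real]
    exact ENNReal.toReal_le_of_le_ofReal (by positivity) hUv.le
  have hw := wweyl hg0 hg1 x hx h
  have hw' : Tendsto (fun M => (wav g x h M).re) atTop (𝓝 0) := by
    have := (Complex.continuous_re.tendsto (0 : ℂ)).comp hw
    rw [Complex.zero_re] at this
    exact this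
  have hev : ∀ᶠ M in atTop, (wav g x h M).re < ε / 2 :=
    hw'.eventually_lt_const (by linarith)
  filter_upwards [hev, eventually_gt_atTop 0] with M hM hM0
  have hM0' : (0 : ℝ) < M := by exact_mod_cast hM0
  have h3 : wav g x h M = (((∑ m ∈ Finset.range M, g m * (f (x m) - ∫ y : Circ, f y)) / M : ℝ) : ℂ) := by
    unfold wav
    rw [h1]
    push_cast
    rfl
  rw [h3, Complex.ofReal_re, div_lt_iff₀ hM0'] at hM
  rw [div_lt_iff₀ hM0']
  have h4 : ∑ m ∈ Finset.range M, g m * ((if x m ∈ E then 1 else 0) - v) ≤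
      ∑ m ∈ Finset.range M, (g m * (f (x m) - ∫ y : Circ, f y) + ε / 2) := by
    refine Finset.sum_le_sum fun m _ => ?_
    have h5 : (if x m ∈ E then (1 : ℝ) else 0) ≤ f (x m) := by
      split_ifs with hm
      · have := hf1 hm
        simp only [Pi.one_apply] at this
        rw [this]
      · exact (hf01 _).1
    have h6 : (if x m ∈ E then (1 : ℝ) else 0) - v ≤ (f (x m) - ∫ y : Circ, f y) + ε / 2 := by
      linarith
    have h7 := mul_le_mul_of_nonneg_left h6 (hg0 m)
    have h8 : g m * (ε / 2) ≤ ε / 2 := by nlinarith [hg1 m]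
    linarith
  refine h4.trans_lt ?_
  rw [Finset.sum_add_distrib, Finset.sum_const, Finset.card_range, nsmul_eq_mul]
  linarith

theorem fourier_e (n : ℤ) (t : ℝ) : (fourier n ((t : ℝ) : Circ) : ℂ) = e (n * t) := by
  rw [fourier_coe_apply]
  unfold e
  congr 1
  push_cast
  ring

/-- Weyl criterion with weights, for half-open intervals. -/
theorem wweyl_interval {g : ℕ → ℝ} (hg0 : ∀ n, 0 ≤ g n) (hg1 : ∀ n, g n ≤ 1) (t : ℕ → ℝ)
    (ht : ∀ n : ℤ, n ≠ 0 → Tendsto (fun M : ℕ =>
      (∑ m ∈ Finset.range M, (g m : ℂ) * e (n * t m)) / M) atTop (𝓝 0))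
    (α β : ℝ) (hα : 0 ≤ α) (hαβ : α ≤ β) (hβ : β ≤ 1) :
    Tendsto (fun M : ℕ => (∑ m ∈ Finset.range M,
      g m * ((if α ≤ Int.fract (t m) ∧ Int.fract (t m) < β then 1 else 0) - (β - α))) / M)
      atTop (𝓝 0) := by
  classical
  set x : ℕ → Circ := fun m => ((t m : ℝ) : Circ) with hx
  have hx' : ∀ n : ℤ, n ≠ 0 → Tendsto (fun M : ℕ =>
      (∑ m ∈ Finset.range M, (g m : ℂ) * (fourier n (x m) : ℂ)) / M) atTop (𝓝 0) := by
    intro n hn
    refine (ht n hn).congr fun M => ?_
    simp only [hx, fourier_e]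
  have hcl : ∀ a c : ℝ, IsClosed ((fun s : ℝ => (s : Circ)) '' Icc a c) := fun a c =>
    (isCompact_Icc.image (AddCircle.continuous_mk' (1 : ℝ))).isClosed
  have hfr : ∀ s : ℝ, ((s : ℝ) : Circ) = ((Int.fract s : ℝ) : Circ) := by
    intro s
    rw [← sub_eq_zero, ← AddCircle.coe_sub, AddCircle.coe_eq_zero_iff]
    exact ⟨⌊s⌋, by simp [Int.self_sub_fract]⟩
  rw [Metric.tendsto_atTop]
  intro ε hε
  have h1 := wclosed hg0 hg1 x hx' (hcl α β) (β - α) (by linarith)
    (Pool.Agent.H493R3.volume_arc α β (by linarith)) ε hε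
  have h2 := wclosed hg0 hg1 x hx' (hcl β (α + 1)) (α + 1 - β) (by linarith)
    (Pool.Agent.H493R3.volume_arc β (α + 1) (by linarith)) ε hε
  obtain ⟨N0, hN0⟩ := eventually_atTop.1 (h1.and (h2.and (eventually_gt_atTop 0)))
  refine ⟨N0, fun N hN => ?_⟩
  obtain ⟨g1, g2, hNpos⟩ := hN0 N hN
  have hNr : (0 : ℝ) < N := by exact_mod_cast hNpos
  rw [dist_eq_norm, sub_zero, Real.norm_eq_abs, abs_lt]
  constructor
  · rw [← neg_lt_neg_iff, neg_neg, ← neg_div, ← Finset.sum_neg_distrib]
    refine lt_of_le_of_lt ?_ g2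
    refine div_le_div_of_nonneg_right (Finset.sum_le_sum fun m _ => ?_) hNr.le
    rw [← mul_neg]
    refine mul_le_mul_of_nonneg_left ?_ (hg0 m)
    by_cases hm : α ≤ Int.fract (t m) ∧ Int.fract (t m) < β
    · rw [if_pos hm]
      have : (0 : ℝ) ≤ if x m ∈ (fun s : ℝ => (s : Circ)) '' Icc β (α + 1) then 1 else 0 := by
        split_ifs <;> norm_num
      linarith
    · rw [if_neg hm]
      have hmem : x m ∈ (fun s : ℝ => (s : Circ)) '' Icc β (α + 1) := by
        have f0 := Int.fract_nonneg (t m)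
        have f1 := Int.fract_lt_one (t m)
        by_cases h3 : Int.fract (t m) < α
        · refine ⟨Int.fract (t m) + 1, ⟨by linarith, by linarith⟩, ?_⟩
          have h4 : (((Int.fract (t m) + 1 : ℝ)) : Circ) = ((Int.fract (t m) : ℝ) : Circ) := by
            have := AddCircle.coe_add_period (1 : ℝ) (Int.fract (t m))
            exact this
          simp only [hx]
          rw [h4, ← hfr]
        · refine ⟨Int.fract (t m), ⟨?_, by linarith⟩, ?_⟩
          · by_contra h4
            exact hm ⟨not_lt.1 h3, not_le.1 h4⟩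
          · simp only [hx]
            rw [← hfr]
      rw [if_pos hmem]
      linarith
  · refine lt_of_le_of_lt ?_ g1
    refine div_le_div_of_nonneg_right (Finset.sum_le_sum fun m _ => ?_) hNr.le
    refine mul_le_mul_of_nonneg_left ?_ (hg0 m)
    by_cases hm : α ≤ Int.fract (t m) ∧ Int.fract (t m) < β
    · rw [if_pos hm]
      have hmem : x m ∈ (fun s : ℝ => (s : Circ)) '' Icc α β :=
        ⟨Int.fract (t m), ⟨hm.1, hm.2.le⟩, by simp only [hx]; rw [← hfr]⟩
      rw [if_pos hmem]
    · rw [if_neg hm]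
      have : (0 : ℝ) ≤ if x m ∈ (fun s : ℝ => (s : Circ)) '' Icc α β then 1 else 0 := by
        split_ifs <;> norm_num
      linarith

end Pool.Agent.Helper5.KM
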