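import Pool.Agent.Helper5.KM.Zero
import Pool.Agent.Helper5.KM.Wey
import Pool.Agent.Helper44.KM.SHC
import Pool.Agent.Helper46.KM.AE
import Pool.Graph.R_pool_sql_team_seeded_3997aac3.Q77.Few.Norm

/-! Assembly of the K-process theorem. -/

open MeasureTheory Filter Topology

namespace Pool.Agent.Helper5.KM

variable {b : ℕ}

theorem dio_of_not_liouville {x : ℝ} (hx : Irrational x) (hL : ¬ Liouville x) (m : ℤ)
    (hm : m ≠ 0) : Dio (m * x) := by
  have h1 : ∃ n : ℕ, ∀ a q : ℤ, 1 < q → 1 / (q : ℝ) ^ n ≤ |x - a / q| := by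
    by_contra hcon
    push Not at hcon
    apply hL
    intro n
    obtain ⟨a, q, hq, h⟩ := hcon n
    refine ⟨a, q, hq, ?_, h⟩
    intro he
    exact hx ⟨(a : ℚ) / q, by rw [he]; push_cast; rfl⟩
  obtain ⟨n, hn⟩ := h1
  have hm0 : (0 : ℝ) < |(m : ℝ)| := abs_pos.2 (by exact_mod_cast hm)
  have hm1 : (1 : ℝ) ≤ |(m : ℝ)| := by
    rw [← Int.cast_abs]
    exact_mod_cast Int.one_le_abs hm
  refine ⟨1 / (2 * |(m : ℝ)|) ^ n, by positivity, n, fun D hD p => ?_⟩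
  have hD0 : (0 : ℝ) < D := by exact_mod_cast hD
  have hD1 : (1 : ℝ) ≤ D := by exact_mod_cast hD
  -- the denominator `2 |m| D`
  have hq : 1 < 2 * |m| * (D : ℤ) := by
    have h2 : 1 ≤ |m| := Int.one_le_abs hm
    have h3 : 1 ≤ (D : ℤ) := by exact_mod_cast hD
    nlinarith
  have h4 := hn (2 * m.sign * p) (2 * |m| * (D : ℤ)) hq
  have hs : (m.sign : ℝ) * |(m : ℝ)| = m := by
    have := Int.sign_mul_abs m
    exact_mod_cast this
  have hs2 : (m.sign : ℝ) * m.sign = 1 := by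
    rcases lt_trichotomy m 0 with h | h | h
    · rw [Int.sign_eq_neg_one_of_neg h]; norm_num
    · exact absurd h hm
    · rw [Int.sign_eq_one_of_pos h]; norm_num
  have h5 : |(m : ℝ) * x * D - p| = |(m : ℝ)| * D * |x - ((2 * m.sign * p : ℤ) : ℝ) / ((2 * |m| * (D : ℤ) : ℤ) : ℝ)| := by
    rw [← abs_of_pos hD0, ← abs_mul, ← abs_mul, abs_of_pos hD0]
    congr 1
    push_cast
    have h6 : (m : ℝ) * x * D - p = (m : ℝ) * D * (x - (2 * m.sign * p) / (2 * |(m : ℝ)| * D)) := by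
      have h7 : (m : ℝ) * (2 * m.sign * p) = (m.sign : ℝ) * m.sign * |(m : ℝ)| * 2 * p := by
        rw [show (m : ℝ) * (2 * m.sign * p) = (m.sign : ℝ) * (m : ℝ) * 2 * p by ring]
        conv_lhs => rw [← hs]
        ring
      rw [hs2, one_mul] at h7
      rw [mul_sub, mul_div_assoc']
      rw [show (m : ℝ) * D * (2 * m.sign * p) = (m : ℝ) * (2 * m.sign * p) * D by ring, h7]
      field_simp
    exact h6
  rw [h5]
  push_cast at h4 ⊢
  have h8 : 1 / (2 * |(m : ℝ)|) ^ n / (D : ℝ) ^ n = 1 / (2 * |(m : ℝ)| * D) ^ n := by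
    rw [mul_pow (2 * |(m : ℝ)|) (D : ℝ) n, div_div]
  rw [h8]
  refine h4.trans ?_
  have h9 : (1 : ℝ) ≤ |(m : ℝ)| * D := by nlinarith
  nlinarith [abs_nonneg (x - 2 * (m.sign : ℝ) * p / (2 * |(m : ℝ)| * D))]

/-- `w` stands in `z` at the place `n + 1` after the point -/
def Occ {k : ℕ} (w : Fin k → Fin b) (z : ℝ) (n : ℕ) : Prop :=
  ∀ i : Fin k, ⌊z * (b : ℝ) ^ (n + 1 + (i : ℕ))⌋ % b = ((w i : ℕ) : ℤ)

theorem occ_iff (hb : 2 ≤ b) {k : ℕ} (w : Fin k → Fin b) : ∃ α : ℝ, 0 ≤ α ∧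
    α + 1 / (b : ℝ) ^ k ≤ 1 ∧ ∀ (z : ℝ) (n : ℕ), Occ w z n ↔
      α ≤ Int.fract (z * (b : ℝ) ^ n) ∧ Int.fract (z * (b : ℝ) ^ n) < α + 1 / (b : ℝ) ^ k := by
  set w' : ℕ → Fin b := fun j => if h : j < k then w ⟨j, h⟩ else ⟨0, by omega⟩ with hw'
  have hw : ∀ j : Fin k, w' j = w j := by
    intro j
    rw [hw']
    simp [j.isLt]
  have hbk : (0 : ℝ) < (b : ℝ) ^ k := by
    have : (0 : ℝ) < b := by exact_mod_cast (by omega : 0 < b)
    positivity
  have key : ∀ (z : ℝ) (n : ℕ), Occ w z n ↔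
      (Pool.Agent.Q77.Few.head b w' k : ℝ) / (b : ℝ) ^ k ≤ Int.fract (z * (b : ℝ) ^ n) ∧
        Int.fract (z * (b : ℝ) ^ n) < ((Pool.Agent.Q77.Few.head b w' k : ℝ) + 1) / (b : ℝ) ^ k := by
    intro z n
    rw [← Pool.Agent.Q77.Few.word_iff b (by omega) (z * (b : ℝ) ^ n) k w w' hw]
    unfold Occ
    refine forall_congr' fun i => ?_
    have : z * (b : ℝ) ^ (n + 1 + (i : ℕ)) = z * (b : ℝ) ^ n * (b : ℝ) ^ ((i : ℕ) + 1) := by
      rw [mul_assoc, ← pow_add]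
      congr 2
      ring
    rw [this]
  refine ⟨(Pool.Agent.Q77.Few.head b w' k : ℝ) / (b : ℝ) ^ k, by positivity, ?_, fun z n => ?_⟩
  · have h1 := Pool.Agent.Q77.Few.head_lt b w' k
    rw [← add_div, div_le_one hbk]
    exact_mod_cast h1
  · rw [key z n, ← add_div]

theorem joint (hb : 2 ≤ b) {μ : Measure (Sq b)} [IsProbabilityMeasure μ] (h : KProc b μ)
    {x : ℝ} (hx : Irrational x) (hL : ¬ Liouville x) (c : ℝ) (S : Set ℕ) :
    ∀ᵐ y ∂μ, ∀ (j k : ℕ) (u : Fin j → Fin b) (w : Fin k → Fin b),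
      Tendsto (fun N : ℕ =>
        ((({n : ℕ | n < N ∧ n ∈ S ∧ (∀ i : Fin j, y ((n + (i : ℕ) : ℕ) : ℤ) = u i) ∧
            Occ w (x * val y + c) n}.ncard : ℕ) : ℝ) -
          (({n : ℕ | n < N ∧ n ∈ S ∧ (∀ i : Fin j, y ((n + (i : ℕ) : ℕ) : ℤ) = u i)}.ncard : ℕ) : ℝ)
            / (b : ℝ) ^ k) / N) atTop (𝓝 0) := by
  classical
  have hae : ∀ᵐ y ∂μ, ∀ (m : ℤ), m ≠ 0 → ∀ (j : ℕ) (u : Fin j → Fin b),
      Tendsto (fun N : ℕ => (∑ n ∈ Finset.range N,
        (if n ∈ S then e (m * ((b : ℝ) ^ n * c)) else 0) * e ((b : ℝ) ^ n * (m * x) * val y) *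
          (if blk n j y = u then 1 else 0)) / N) atTop (𝓝 (0 : ℂ)) := by
    rw [ae_all_iff]
    intro m
    rw [ae_all_iff]
    intro hm
    rw [ae_all_iff]
    intro j
    rw [ae_all_iff]
    intro u
    refine Pool.Agent.Helper46.KM.ae_weighted hb h
      (fun f hf n k => Pool.Agent.Helper44.KM.condExp_sh h.stat f hf n k) (m * x)
      (fun q hq hq1 => zero hb h (m * x) (dio_of_not_liouville hx hL m hm) q hq hq1) j
      (fun v => if v = u then 1 else 0) (fun v => ?_)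
      (fun n => if n ∈ S then e (m * ((b : ℝ) ^ n * c)) else 0) (fun n => ?_)
    · split_ifs <;> simp
    · split_ifs
      · exact (norm_e _).le
      · simp
  filter_upwards [hae] with y hy j k u w
  obtain ⟨α, hα, hα1, hocc⟩ := occ_iff hb w
  set z : ℝ := x * val y + c with hz
  set g : ℕ → ℝ := fun n => if n ∈ S ∧ blk n j y = u then 1 else 0 with hg
  have hg0 : ∀ n, 0 ≤ g n := fun n => by simp only [hg]; split_ifs <;> norm_num
  have hg1 : ∀ n, g n ≤ 1 := fun n => by simp only [hg]; split_ifs <;> norm_num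
  have hbk : (0 : ℝ) < 1 / (b : ℝ) ^ k := by
    have : (0 : ℝ) < b := by exact_mod_cast (by omega : 0 < b)
    positivity
  have hw := wweyl_interval hg0 hg1 (fun n => z * (b : ℝ) ^ n) (fun m hm => by
    refine (hy m hm j u).congr fun N => ?_
    congr 1
    refine Finset.sum_congr rfl fun n _ => ?_
    have e1 : (m : ℝ) * (z * (b : ℝ) ^ n) = m * ((b : ℝ) ^ n * c) + (b : ℝ) ^ n * (m * x) * val y := by
      rw [hz]; ring
    rw [e1, e_add]
    simp only [hg]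
    by_cases h1 : n ∈ S <;> by_cases h2 : blk n j y = u <;> simp [h1, h2]) α
    (α + 1 / (b : ℝ) ^ k) hα (by linarith) hα1
  refine hw.congr fun N => ?_
  congr 1
  have hblk : ∀ n : ℕ, blk n j y = u ↔ ∀ i : Fin j, y ((n + (i : ℕ) : ℕ) : ℤ) = u i := by
    intro n
    constructor
    · intro h i
      have := congrFun h i
      rw [← this]
      unfold blk
      push_cast
      rfl
    · intro h
      funext i
      rw [← h i]
      unfold blk
      push_cast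
      rfl
  have e2 : {n : ℕ | n < N ∧ n ∈ S ∧ (∀ i : Fin j, y ((n + (i : ℕ) : ℕ) : ℤ) = u i) ∧ Occ w z n} =
      ((Finset.range N).filter (fun n => (n ∈ S ∧ blk n j y = u) ∧ Occ w z n) : Finset ℕ) := by
    ext n
    simp only [Set.mem_ofPred_eq, Finset.coe_filter, Finset.mem_range, hblk n]
    tauto
  have e3 : {n : ℕ | n < N ∧ n ∈ S ∧ (∀ i : Fin j, y ((n + (i : ℕ) : ℕ) : ℤ) = u i)} =
      ((Finset.range N).filter (fun n => n ∈ S ∧ blk n j y = u) : Finset ℕ) := by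
    ext n
    simp only [Set.mem_ofPred_eq, Finset.coe_filter, Finset.mem_range, hblk n]
  rw [e2, e3, Set.ncard_coe_finset, Set.ncard_coe_finset, Finset.card_filter, Finset.card_filter]
  push_cast
  rw [Finset.sum_div, ← Finset.sum_sub_distrib]
  refine Finset.sum_congr rfl fun n _ => ?_
  simp only [hg, hocc z n]
  by_cases h1 : n ∈ S ∧ blk n j y = u
  · by_cases h2 : α ≤ Int.fract (z * (b : ℝ) ^ n) ∧ Int.fract (z * (b : ℝ) ^ n) < α + 1 / (b : ℝ) ^ k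
    · rw [if_pos h1, if_pos h2, if_pos ⟨h1, h2⟩]; ring
    · rw [if_pos h1, if_neg h2, if_neg (fun h => h2 h.2)]; ring
  · have h3 : ¬ ((n ∈ S ∧ blk n j y = u) ∧ α ≤ Int.fract (z * (b : ℝ) ^ n) ∧
        Int.fract (z * (b : ℝ) ^ n) < α + 1 / (b : ℝ) ^ k) := fun h => h1 h.1
    rw [if_neg h1, if_neg h3]; ring

end Pool.Agent.Helper5.KM
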