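import Pool.Agent.Helper49.KM.ENT1
import Pool.Agent.Helper49.KM.ENT2
import Pool.Agent.Helper49.KM.ENT3A
import Pool.Agent.Helper49.KM.ENT3B
import Pool.Agent.Helper49.KM.ENT4
import Pool.Agent.Helper49.KM.DIO
import Pool.Agent.Helper49.KM.APPROX

/-! Part NOG: no approximate graphs over the past. -/

open MeasureTheory Filter Topology

namespace Pool.Agent.Helper5.KM

open Pool.Agent.Helper49.KM (ent_det ent_small not_past ent_pos subadd approx decode)

variable {b : ℕ}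

theorem blk_eq_iff {s : ℤ} {n : ℕ} {y y' : Sq b} :
    blk s n y = blk s n y' ↔ ∀ i : ℕ, i < n → y (s + i) = y' (s + i) := by
  constructor
  · intro h i hi
    exact congrFun h ⟨i, hi⟩
  · intro h
    funext i
    exact h i i.2

theorem ent_nonneg {α : Type} [Fintype α] {μ : Measure (Sq b)} [IsProbabilityMeasure μ]
    (f : Sq b → α) : 0 ≤ ent μ f :=
  Finset.sum_nonneg fun _ _ => Real.negMulLog_nonneg measureReal_nonneg measureReal_le_one

/-- the number of the arc of length `1/M` containing `t` mod 1, between `1` and `M` -/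
noncomputable def arc (M : ℕ) (t : ℝ) : Fin (M + 1) :=
  Fin.ofNat (M + 1) (1 + ⌊(M : ℝ) * Int.fract t⌋₊)

theorem arc_val {M : ℕ} (hM : 0 < M) (t : ℝ) : (arc M t : ℕ) = 1 + ⌊(M : ℝ) * Int.fract t⌋₊ := by
  unfold arc
  have h1 : ⌊(M : ℝ) * Int.fract t⌋₊ < M := by
    rw [Nat.floor_lt (by positivity)]
    have := Int.fract_lt_one t
    have hM' : (0 : ℝ) < M := by exact_mod_cast hM
    nlinarith [Int.fract_nonneg t]
  simp only [Fin.ofNat]
  exact Nat.mod_eq_of_lt (by omega)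

theorem arc_ne_zero {M : ℕ} (hM : 0 < M) (t : ℝ) : arc M t ≠ 0 := by
  intro h
  have h1 := arc_val hM t
  rw [h] at h1
  simp at h1
  omega

theorem e_fract (t : ℝ) : e (Int.fract t) = e t := by
  have h1 : t = Int.fract t + (⌊t⌋ : ℝ) := by rw [add_comm, Int.floor_add_fract]
  conv_rhs => rw [h1]
  rw [e_int]

theorem arc_close {M : ℕ} (hM : 0 < M) {s t : ℝ} (h : arc M s = arc M t) :
    ‖e s - e t‖ ≤ 2 * Real.pi / M := by
  have h1 : (arc M s : ℕ) = (arc M t : ℕ) := by rw [h]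
  rw [arc_val hM, arc_val hM] at h1
  have h2 : ⌊(M : ℝ) * Int.fract s⌋₊ = ⌊(M : ℝ) * Int.fract t⌋₊ := by omega
  have hM' : (0 : ℝ) < M := by exact_mod_cast hM
  have h3 := Nat.floor_le (show 0 ≤ (M : ℝ) * Int.fract s from
    mul_nonneg hM'.le (Int.fract_nonneg s))
  have h4 := Nat.lt_floor_add_one ((M : ℝ) * Int.fract s)
  have h5 := Nat.floor_le (show 0 ≤ (M : ℝ) * Int.fract t from
    mul_nonneg hM'.le (Int.fract_nonneg t))
  have h6 := Nat.lt_floor_add_one ((M : ℝ) * Int.fract t)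
  rw [h2] at h3 h4
  have h7 : |(M : ℝ) * (Int.fract s - Int.fract t)| ≤ 1 := by
    rw [abs_le]; constructor <;> nlinarith
  rw [abs_mul, abs_of_pos hM'] at h7
  rw [← e_fract s, ← e_fract t]
  refine (norm_e_sub_le _ _).trans ?_
  rw [le_div_iff₀ hM']
  nlinarith [Real.pi_pos]

theorem norm_four {a w g u0 u v G : ℂ} (ha : ‖a‖ = 1) (hw : ‖w‖ = 1) (hg : ‖g‖ = 1) :
    ‖a - G * (starRingEnd ℂ) (w * g)‖ ≤ ‖g - u0‖ + ‖w * u0 - u‖ + ‖a * u - v‖ + ‖v - G‖ := by
  have h1 : (starRingEnd ℂ) (w * g) * (w * g) = 1 := by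
    rw [Complex.conj_mul']
    simp [hw, hg]
  have h2 : a - G * (starRingEnd ℂ) (w * g) = (a * (w * g) - G) * (starRingEnd ℂ) (w * g) := by
    have : (a * (w * g) - G) * (starRingEnd ℂ) (w * g) =
      a * ((starRingEnd ℂ) (w * g) * (w * g)) - G * (starRingEnd ℂ) (w * g) := by ring
    rw [this, h1, mul_one]
  rw [h2, norm_mul]
  have h3 : ‖(starRingEnd ℂ) (w * g)‖ = 1 := by
    rw [RCLike.norm_conj, norm_mul, hw, hg, one_mul]
  rw [h3, mul_one]
  have h4 : a * (w * g) - G = a * w * (g - u0) + a * (w * u0 - u) + (a * u - v) + (v - G) := by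
    ring
  rw [h4]
  refine (norm_add_le _ _).trans (add_le_add_left ((norm_add_le _ _).trans (add_le_add_left
    ((norm_add_le _ _).trans ?_) _)) _)
  rw [norm_mul, norm_mul, norm_mul, ha, hw]
  linarith

theorem integrable_of_bdd {μ : Measure (Sq b)} [IsProbabilityMeasure μ] {f : Sq b → ℝ}
    (hf : Measurable f) (C : ℝ) (hC : ∀ y, |f y| ≤ C) : Integrable f μ :=
  Integrable.of_bound hf.aestronglyMeasurable C (Eventually.of_forall hC)

theorem nograph (hb : 2 ≤ b) {μ : Measure (Sq b)} [IsProbabilityMeasure μ] (h : KProc b μ)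
    (X : ℝ) (hX : Dio X) : ∃ ε : ℝ, 0 < ε ∧ ∀ (l : ℕ) (U : ℕ → Sq b → ℂ),
      (∀ k, StronglyMeasurable[past b 0] (U k)) → (∀ k y, ‖U k y‖ = 1) →
      ¬ ∀ j k : ℕ, ∫ y, ‖e ((b : ℝ) ^ (l + j) * X * Bk k y) * U j (sh k y) - U (j + k) y‖ ∂μ ≤ ε := by
  have hb0 : (0 : ℝ) < b := by exact_mod_cast (by omega : 0 < b)
  have hb1 : (1 : ℝ) < b := by exact_mod_cast (by omega : 1 < b)
  obtain ⟨c, hc, κ0, hD0⟩ := hX
  obtain ⟨κ, hκ, hD⟩ : ∃ κ : ℕ, 1 ≤ κ ∧ ∀ D : ℕ, 0 < D → ∀ p : ℤ,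
      c / (D : ℝ) ^ κ ≤ |X * D - p| := by
    refine ⟨κ0 + 1, by omega, fun D hD p => le_trans ?_ (hD0 D hD p)⟩
    have h1 : (1 : ℝ) ≤ D := by exact_mod_cast hD
    exact div_le_div_of_nonneg_left hc.le (by positivity) (pow_le_pow_right₀ h1 (by omega))
  obtain ⟨c0, hc0, hpos⟩ := ent_pos h.stat (not_past h)
  set H : ℕ → ℝ := fun n => ent μ (blk 0 n : Sq b → _) with hH
  have hs : ∀ m n, H (m + n) ≤ H m + H n := by
    intro m n
    have := ent_det h.stat m 0 n 0 0 (fun k => k.elim0) (fun k => k.elim0)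
      (fun y y' _ _ _ => funext fun i => i.elim0)
    simpa using this
  obtain ⟨hh, hhc, hlim, hinc⟩ := subadd H (fun n => ent_nonneg _) hs c0 hc0 hpos
  have hh0 : 0 < hh := lt_of_lt_of_le hc0 hhc
  set δ : ℝ := hh / (4 * (κ + 1)) with hδ
  have hδ0 : 0 < δ := by positivity
  obtain ⟨p, hp, hsmall⟩ := ent_small (7 * b) δ hδ0
  have hM : 0 < 7 * b := by omega
  refine ⟨p / (8 * b), by positivity, fun l U hU h1 hall => ?_⟩
  set ε : ℝ := p / (8 * b) with hε
  have hε0 : 0 < ε := by positivity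
  have hUm : ∀ k, Measurable (U k) := fun k => (hU k).measurable.mono (past_le 0) le_rfl
  -- approximation of `U 0`
  obtain ⟨L, hL⟩ := approx (μ := μ) (U 0) (hU 0) (h1 0) ε hε0
  obtain ⟨g, hg1, hg⟩ := hL L le_rfl
  -- the constant `C`
  obtain ⟨C, hC⟩ : ∃ C : ℕ, 1 < c * (b : ℝ) ^ C := by
    obtain ⟨C, hC⟩ := pow_unbounded_of_one_lt (1 / c) hb1
    exact ⟨C, by rwa [div_lt_iff₀ hc, mul_comm] at hC⟩
  -- choice of `K'`
  set KK : ℕ → ℕ := fun K' => κ * (l + L + K') + L + (C + 1) with hKK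
  have hKKtop : Tendsto KK atTop atTop := by
    refine tendsto_atTop_mono (fun K' => ?_) tendsto_id
    simp only [hKK, id]
    nlinarith
  obtain ⟨K', hK'1, hK'2, hK'3⟩ : ∃ K' : ℕ, (KK K' : ℝ) ≤ (κ + 1) * K' ∧
      H (KK K') ≤ (hh + δ) * KK K' ∧ 2 / hh < K' := by
    have e1 : ∀ᶠ K' : ℕ in atTop, (KK K' : ℝ) ≤ (κ + 1) * K' := by
      filter_upwards [eventually_ge_atTop (κ * (l + L) + L + (C + 1))] with K' hK'
      have : KK K' ≤ (κ + 1) * K' := by simp only [hKK]; nlinarith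
      exact_mod_cast this
    have e2 : ∀ᶠ K' : ℕ in atTop, H (KK K') ≤ (hh + δ) * KK K' := by
      have h2 := (hlim.comp hKKtop).eventually (gt_mem_nhds (show hh < hh + δ by linarith))
      filter_upwards [h2] with K' hK'
      have h3 : (0 : ℝ) < KK K' := by
        have : 0 < KK K' := by simp only [hKK]; omega
        exact_mod_cast this
      simp only [Function.comp] at hK'
      rw [div_lt_iff₀ h3] at hK'
      exact hK'.le
    have e3 : ∀ᶠ K' : ℕ in atTop, 2 / hh < (K' : ℝ) :=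
      tendsto_natCast_atTop_atTop.eventually (eventually_gt_atTop (2 / hh))
    obtain ⟨K', h⟩ := (e1.and (e2.and e3)).exists
    exact ⟨K', h.1, h.2.1, h.2.2⟩
  set K : ℕ := KK K' with hK
  have hLK : L < K := by rw [hK, hKK]; simp only; omega
  have hKc : (b : ℝ) ^ (κ * (l + L + K')) < c * (b : ℝ) ^ (K - L - 1) := by
    have : K - L - 1 = C + κ * (l + L + K') := by rw [hK, hKK]; simp only; omega
    rw [this, pow_add, ← mul_assoc]
    exact (lt_mul_iff_one_lt_left (by positivity)).2 hC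
  -- approximation of the other `U k`
  have happ : ∀ k : ℕ, ∃ n0 : ℕ, ∀ n ≥ n0, ∃ g : (Fin n → Fin b) → ℂ, (∀ w, ‖g w‖ = 1) ∧
      ∫ y, ‖U k y - g (blk (-(n : ℤ)) n y)‖ ∂μ ≤ ε := fun k => approx (U k) (hU k) (h1 k) ε hε0
  choose N0 hN0 using happ
  obtain ⟨n, hn, hnH⟩ := hinc (K' + K) ((Finset.range (K + K')).sup N0) 1 one_pos
  have hn' : ∀ k, k < K → ∃ g : (Fin n → Fin b) → ℂ, (∀ w, ‖g w‖ = 1) ∧
      ∫ y, ‖U (k + K') y - g (blk (-(n : ℤ)) n y)‖ ∂μ ≤ ε := fun k hk =>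
    hN0 (k + K') n ((Finset.le_sup (f := N0) (Finset.mem_range.2 (by omega))).trans hn)
  have hn'' : ∀ k, ∃ g : (Fin n → Fin b) → ℂ, (∀ w, ‖g w‖ = 1) ∧
      (k < K → ∫ y, ‖U (k + K') y - g (blk (-(n : ℤ)) n y)‖ ∂μ ≤ ε) := by
    intro k
    by_cases hk : k < K
    · obtain ⟨g, h1, h2⟩ := hn' k hk
      exact ⟨g, h1, fun _ => h2⟩
    · exact ⟨fun _ => 1, fun _ => norm_one, fun h => absurd h hk⟩
  choose G hG1 hG using hn''
  -- the predictions and the corrections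
  set θ : ℕ → Sq b → ℝ := fun k y => (b : ℝ) ^ (l + k) * X * num (blk 0 K' y) with hθ
  set ρ : ℕ → Sq b → ℂ := fun k y => G k (blk (-(n : ℤ)) n y) *
    (starRingEnd ℂ) (e ((b : ℝ) ^ l * X * num (blk K' k y)) * g (blk (k + K' - L) L y)) with hρ
  have hfin : ∀ (β : Type) [MeasurableSpace β] (s : ℤ) (m : ℕ) (F : (Fin m → Fin b) → β),
      Measurable (fun y : Sq b => F (blk s m y)) := fun β _ s m F =>
    (measurable_of_finite F).comp (measurable_blk s m)
  have hρm : ∀ k, Measurable (ρ k) := by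
    intro k
    refine (hfin ℂ _ n (G k)).mul (Complex.continuous_conj.measurable.comp ?_)
    exact (hfin ℂ _ k (fun w => e ((b : ℝ) ^ l * X * num w))).mul (hfin ℂ _ L g)
  have hθm : ∀ k, Measurable (θ k) := fun k =>
    hfin ℝ _ K' (fun w => (b : ℝ) ^ (l + k) * X * num w)
  have hρ1 : ∀ k y, ‖ρ k y‖ = 1 := by
    intro k y
    simp only [hρ]
    rw [norm_mul, hG1, one_mul, RCLike.norm_conj, norm_mul, norm_e, hg1, one_mul]
  have hint : ∀ f : Sq b → ℂ, Measurable f → (∀ y, ‖f y‖ ≤ 2) → Integrable (fun y => ‖f y‖) μ :=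
    fun f hf hf2 => integrable_of_bdd hf.norm 2 (fun y => by rw [abs_norm]; exact hf2 y)
  have hsub2 : ∀ z w : ℂ, ‖z‖ = 1 → ‖w‖ = 1 → ‖z - w‖ ≤ 2 := fun z w hz hw =>
    (norm_sub_le z w).trans (by rw [hz, hw]; norm_num)
  have hest : ∀ k, L ≤ k → k < K → ∫ y, ‖e (θ k y) - ρ k y‖ ∂μ ≤ 4 * ε := by
    intro k hk1 hk2
    set A1 : Sq b → ℂ := fun y => g (blk (k + K' - L) L y) - U 0 (sh k (sh K' y)) with hA1
    set A2 : Sq b → ℂ := fun y => e ((b : ℝ) ^ l * X * num (blk K' k y)) * U 0 (sh k (sh K' y)) -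
      U k (sh K' y) with hA2
    set A3 : Sq b → ℂ := fun y => e (θ k y) * U k (sh K' y) - U (k + K') y with hA3
    set A4 : Sq b → ℂ := fun y => U (k + K') y - G k (blk (-(n : ℤ)) n y) with hA4
    have m1 : Measurable A1 := (hfin ℂ _ L g).sub
      ((hUm 0).comp ((measurable_sh _).comp (measurable_sh _)))
    have m2 : Measurable A2 := ((hfin ℂ _ k (fun w => e ((b : ℝ) ^ l * X * num w))).mul
      ((hUm 0).comp ((measurable_sh _).comp (measurable_sh _)))).sub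
      ((hUm k).comp (measurable_sh _))
    have m3 : Measurable A3 := ((measurable_e.comp (hθm k)).mul
      ((hUm k).comp (measurable_sh _))).sub (hUm _)
    have m4 : Measurable A4 := (hUm _).sub (hfin ℂ _ n (G k))
    have b1 : ∀ y, ‖A1 y‖ ≤ 2 := fun y => hsub2 _ _ (hg1 _) (h1 _ _)
    have b2 : ∀ y, ‖A2 y‖ ≤ 2 := fun y => hsub2 _ _ (by rw [norm_mul, norm_e, h1, one_mul]) (h1 _ _)
    have b3 : ∀ y, ‖A3 y‖ ≤ 2 := fun y => hsub2 _ _ (by rw [norm_mul, norm_e, h1, one_mul]) (h1 _ _)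
    have b4 : ∀ y, ‖A4 y‖ ≤ 2 := fun y => hsub2 _ _ (h1 _ _) (hG1 _ _)
    have i1 : ∫ y, ‖A1 y‖ ∂μ ≤ ε := by
      have e1 : ∫ y, ‖A1 y‖ ∂μ = ∫ y, ‖g (blk (-(L : ℤ)) L y) - U 0 y‖ ∂μ := by
        have e2 := (mp_sh h.stat ((k : ℤ) + K')).integral_comp
          (shEquiv (b := b) ((k : ℤ) + K')).measurableEmbedding
          (fun y => ‖g (blk (-(L : ℤ)) L y) - U 0 y‖)
        rw [← e2]
        refine integral_congr_ae (Eventually.of_forall fun y => ?_)
        simp only [hA1]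
        rw [blk_sh, sh_sh]
        congr 3
        ring_nf
      rw [e1]
      simpa only [norm_sub_rev] using hg
    have i2 : ∫ y, ‖A2 y‖ ∂μ ≤ ε := by
      have e2 := (mp_sh h.stat (K' : ℤ)).integral_comp
          (shEquiv (b := b) (K' : ℤ)).measurableEmbedding
          (fun y => ‖e ((b : ℝ) ^ (l + 0) * X * Bk k y) * U 0 (sh k y) - U (0 + k) y‖)
      have e1 : ∫ y, ‖A2 y‖ ∂μ =
          ∫ y, ‖e ((b : ℝ) ^ (l + 0) * X * Bk k y) * U 0 (sh k y) - U (0 + k) y‖ ∂μ := by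
        rw [← e2]
        refine integral_congr_ae (Eventually.of_forall fun y => ?_)
        simp only [hA2]
        rw [Bk_eq_num, blk_sh, add_zero, zero_add, zero_add]
      rw [e1]
      exact hall 0 k
    have i3 : ∫ y, ‖A3 y‖ ∂μ ≤ ε := by
      have := hall k K'
      simp only [Bk_eq_num] at this
      exact this
    have i4 : ∫ y, ‖A4 y‖ ∂μ ≤ ε := hG k hk2
    have j1 : Integrable (fun y => ‖A1 y‖ + ‖A2 y‖) μ := (hint _ m1 b1).add (hint _ m2 b2)
    have j2 : Integrable (fun y => ‖A1 y‖ + ‖A2 y‖ + ‖A3 y‖) μ := j1.add (hint _ m3 b3)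
    have j3 : Integrable (fun y => ‖A1 y‖ + ‖A2 y‖ + ‖A3 y‖ + ‖A4 y‖) μ := j2.add (hint _ m4 b4)
    calc ∫ y, ‖e (θ k y) - ρ k y‖ ∂μ
        ≤ ∫ y, (‖A1 y‖ + ‖A2 y‖ + ‖A3 y‖ + ‖A4 y‖) ∂μ := by
          refine integral_mono (hint _ ((measurable_e.comp (hθm k)).sub (hρm k))
            (fun y => hsub2 _ _ (norm_e _) (hρ1 _ _))) j3 (fun y => ?_)
          exact norm_four (norm_e _) (norm_e _) (hg1 _)
      _ = ∫ y, ‖A1 y‖ ∂μ + ∫ y, ‖A2 y‖ ∂μ + ∫ y, ‖A3 y‖ ∂μ + ∫ y, ‖A4 y‖ ∂μ := by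
          rw [integral_add j2 (hint _ m4 b4), integral_add j1 (hint _ m3 b3),
            integral_add (hint _ m1 b1) (hint _ m2 b2)]
      _ ≤ 4 * ε := by linarith
  set V : Fin (K - L) → Sq b → Fin (7 * b + 1) := fun i y =>
    if ‖e (θ (L + i) y) - ρ (L + i) y‖ ≤ 1 / (2 * b) then 0 else arc (7 * b) (θ (L + i) y) with hV
  have hVm : ∀ i, Measurable (V i) := by
    intro i
    refine Measurable.ite ?_ measurable_const ?_
    · exact measurableSet_le (((measurable_e.comp (hθm _)).sub (hρm _)).norm) measurable_const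
    · exact hfin _ _ K' (fun w => arc (7 * b) ((b : ℝ) ^ (l + (L + (i : ℕ))) * X * num w))
  have hVs : ∀ i, ent μ (V i) ≤ δ := by
    intro i
    refine hsmall b μ (V i) (hVm i) ?_
    set k := L + (i : ℕ) with hk
    have hi : (i : ℕ) < K - L := i.2
    have h2 := hest k (by omega) (by omega)
    have h3 : {y | V i y ≠ 0} ⊆ {y | 1 / (2 * (b : ℝ)) ≤ ‖e (θ k y) - ρ k y‖} := by
      intro y hy
      by_contra hlt
      apply hy
      simp only [Set.mem_ofPred_eq, not_le] at hlt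
      simp only [hV]
      rw [if_pos hlt.le]
    have h4 := mul_meas_ge_le_integral_of_nonneg (μ := μ)
      (f := fun y => ‖e (θ k y) - ρ k y‖) (Eventually.of_forall fun y => norm_nonneg _)
      (hint _ ((measurable_e.comp (hθm k)).sub (hρm k))
            (fun y => hsub2 _ _ (norm_e _) (hρ1 _ _))) (1 / (2 * (b : ℝ)))
    have h5 : μ.real {y | V i y ≠ 0} ≤ μ.real {y | 1 / (2 * (b : ℝ)) ≤ ‖e (θ k y) - ρ k y‖} :=
      measureReal_mono h3
    have h6 : 1 / (2 * (b : ℝ)) * μ.real {y | 1 / (2 * (b : ℝ)) ≤ ‖e (θ k y) - ρ k y‖} ≤ 4 * ε :=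
      h4.trans h2
    have h7 : 4 * ε = 1 / (2 * (b : ℝ)) * p := by rw [hε]; field_simp; ring
    rw [h7] at h6
    exact h5.trans (le_of_mul_le_mul_left h6 (by positivity))
  have hdet : ∀ y y', blk (-(n : ℤ)) n y = blk (-(n : ℤ)) n y' → blk K' K y = blk K' K y' →
      (∀ k, V k y = V k y') → blk 0 K' y = blk 0 K' y' := by
    intro y y' hA hF hVV
    refine decode hb X c κ hc hD l L K' K hLK hKc _ _ (fun k hk1 hk2 => ?_)
    have hF' := blk_eq_iff.1 hF
    have hρe : ρ k y = ρ k y' := by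
      simp only [hρ]
      have e1 : blk K' k y = blk K' k y' := blk_eq_iff.2 fun i hi => hF' i (by omega)
      have e2 : blk ((k : ℤ) + K' - L) L y = blk ((k : ℤ) + K' - L) L y' :=
        blk_eq_iff.2 fun i hi => by
          have := hF' (k - L + i) (by omega)
          have e3 : (K' : ℤ) + ((k - L + i : ℕ) : ℤ) = (k : ℤ) + K' - L + i := by
            push_cast [Nat.cast_sub hk1]; ring
          rwa [e3] at this
      rw [hA, e1, e2]
    have hb2 : (1 : ℝ) / b = 1 / (2 * b) + 1 / (2 * b) := by field_simp; norm_num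
    have hVk := hVV ⟨k - L, by omega⟩
    simp only [hV] at hVk
    have hkk : L + (k - L) = k := by omega
    rw [hkk] at hVk
    show ‖e (θ k y) - e (θ k y')‖ ≤ 1 / b
    by_cases c1 : ‖e (θ k y) - ρ k y‖ ≤ 1 / (2 * b)
    · by_cases c2 : ‖e (θ k y') - ρ k y'‖ ≤ 1 / (2 * b)
      · have e4 : e (θ k y) - e (θ k y') = (e (θ k y) - ρ k y) - (e (θ k y') - ρ k y') := by
          rw [hρe]; ring
        rw [e4, hb2]
        exact (norm_sub_le _ _).trans (add_le_add c1 c2)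
      · rw [if_pos c1, if_neg c2] at hVk
        exact absurd hVk.symm (arc_ne_zero hM _)
    · by_cases c2 : ‖e (θ k y') - ρ k y'‖ ≤ 1 / (2 * b)
      · rw [if_neg c1, if_pos c2] at hVk
        exact absurd hVk (arc_ne_zero hM _)
      · rw [if_neg c1, if_neg c2] at hVk
        refine (arc_close hM hVk).trans ?_
        push_cast
        rw [div_le_div_iff₀ (by positivity) hb0]
        nlinarith [Real.pi_lt_d2]
  have hmain := ent_det h.stat n K' K (K - L) (7 * b) V hVm hdet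
  have hsum : ∑ k, ent μ (V k) ≤ (K - L : ℕ) * δ := by
    refine (Finset.sum_le_sum fun k _ => hVs k).trans ?_
    rw [Finset.sum_const, Finset.card_univ, Fintype.card_fin, nsmul_eq_mul]
  have hKL : ((K - L : ℕ) : ℝ) * δ ≤ K * δ := by
    refine mul_le_mul_of_nonneg_right ?_ hδ0.le
    exact_mod_cast Nat.sub_le K L
  have e5 : H (n + K' + K) = H (n + (K' + K)) := by rw [add_assoc]
  have hmain' : H (n + (K' + K)) ≤ H n + H K + K * δ := by
    rw [← e5]; linarith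
  have h8 : ((K' + K : ℕ) : ℝ) = K' + K := by push_cast; ring
  rw [h8] at hnH
  have h9 : (K' : ℝ) * hh ≤ 1 + 2 * δ * K := by nlinarith
  have h10 : 2 * δ * K ≤ hh * K' / 2 := by
    have : 2 * δ * K ≤ 2 * δ * ((κ + 1) * K') := by
      refine mul_le_mul_of_nonneg_left hK'1 (by positivity)
    refine this.trans (le_of_eq ?_)
    rw [hδ]; field_simp; ring
  rw [div_lt_iff₀ hh0] at hK'3
  linarith

end Pool.Agent.Helper5.KM
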