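import Pool.Agent.Helper5.KM.Nog
import Pool.Agent.Helper44.KM.MOD

/-! Part ZERO: the conditional expectations tend to zero. -/

open MeasureTheory Filter Topology

namespace Pool.Agent.Helper5.KM

open Pool.Agent.Helper44.KM (pyth modulus)

variable {b : ℕ}

theorem Qf_meas (μ : Measure (Sq b)) (X : ℝ) (q : Sq b → ℂ) (l : ℕ) :
    StronglyMeasurable[past b 0] (Qf μ X q l) := stronglyMeasurable_condExp

theorem Qf_meas' (μ : Measure (Sq b)) (X : ℝ) (q : Sq b → ℂ) (l : ℕ) :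
    Measurable (Qf μ X q l) := (Qf_meas μ X q l).measurable.mono (past_le 0) le_rfl

theorem Qf_bdd {μ : Measure (Sq b)} [IsProbabilityMeasure μ] (X : ℝ) (q : Sq b → ℂ)
    (hq1 : ∀ y, ‖q y‖ ≤ 1) (l : ℕ) : ∀ᵐ y ∂μ, ‖Qf μ X q l y‖ ≤ 1 := by
  unfold Qf
  refine ae_bdd_norm_condExp_of_ae_bdd_norm (Eventually.of_forall fun y => ?_)
  rw [norm_mul, norm_e, one_mul]
  exact hq1 _

/-- the unimodular part -/
noncomputable def nrm (z : ℂ) : ℂ := if z = 0 then 1 else z / (‖z‖ : ℂ)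

theorem norm_nrm (z : ℂ) : ‖nrm z‖ = 1 := by
  unfold nrm
  split_ifs with h
  · exact norm_one
  · rw [norm_div, Complex.norm_real, norm_norm, div_self (norm_ne_zero_iff.2 h)]

theorem measurable_nrm : Measurable nrm := by
  unfold nrm
  refine Measurable.ite (measurableSet_singleton 0) measurable_const ?_
  exact measurable_id.div (Complex.measurable_ofReal.comp measurable_norm)

theorem nrm_sub {r : ℝ} (hr : 0 < r) (z : ℂ) : ‖nrm z - z / (r : ℂ)‖ = |‖z‖ - r| / r := by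
  have hr' : (r : ℂ) ≠ 0 := by exact_mod_cast hr.ne'
  unfold nrm
  split_ifs with h
  · rw [h, zero_div, sub_zero, norm_one, norm_zero, zero_sub, abs_neg, abs_of_pos hr,
      div_self hr.ne']
  · have hz : (‖z‖ : ℂ) ≠ 0 := by exact_mod_cast norm_ne_zero_iff.2 h
    have h1 : z / (‖z‖ : ℂ) - z / (r : ℂ) = z * (((r - ‖z‖ : ℝ) : ℂ) / ((‖z‖ : ℂ) * (r : ℂ))) := by
      push_cast
      field_simp
    rw [h1, norm_mul, norm_div, norm_mul, Complex.norm_real, Complex.norm_real, Complex.norm_real,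
      norm_norm, Real.norm_eq_abs, Real.norm_eq_abs, abs_of_pos hr, abs_sub_comm]
    have := norm_ne_zero_iff.2 h
    field_simp

theorem nrm_diff {r : ℝ} (hr : 0 < r) (a z w : ℂ) (ha : ‖a‖ = 1) :
    ‖a * nrm z - nrm w‖ ≤ (|‖z‖ - r| + ‖a * z - w‖ + |‖w‖ - r|) / r := by
  have hr' : (r : ℂ) ≠ 0 := by exact_mod_cast hr.ne'
  have h1 : a * nrm z - nrm w = a * (nrm z - z / (r : ℂ)) + (a * z - w) / (r : ℂ)
      - (nrm w - w / (r : ℂ)) := by
    field_simp
    ring
  rw [h1]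
  refine (norm_sub_le _ _).trans ?_
  refine (add_le_add_left (norm_add_le _ _) _).trans (le_of_eq ?_)
  rw [norm_mul, ha, one_mul, nrm_sub hr, nrm_sub hr, norm_div, Complex.norm_real,
    Real.norm_eq_abs, abs_of_pos hr]
  ring

theorem zero (hb : 2 ≤ b) {μ : Measure (Sq b)} [IsProbabilityMeasure μ] (h : KProc b μ)
    (X : ℝ) (hX : Dio X) (q : Sq b → ℂ) (hq : StronglyMeasurable[past b 0] q)
    (hq1 : ∀ y, ‖q y‖ ≤ 1) : Tendsto (fun l : ℕ => ∫ y, ‖Qf μ X q l y‖ ∂μ) atTop (𝓝 0) := by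
  obtain ⟨r, hr0, hr⟩ := modulus h X q hq hq1
  rcases hr0.eq_or_lt with hr1 | hr1
  · rw [← hr1] at hr
    simpa using hr
  exfalso
  obtain ⟨ε, hε, hno⟩ := nograph hb h X hX
  set Q := Qf μ X q with hQ
  have hQm : ∀ l, Measurable (Q l) := fun l => Qf_meas' μ X q l
  have hQb : ∀ l, ∀ᵐ y ∂μ, ‖Q l y‖ ≤ 1 := fun l => Qf_bdd X q hq1 l
  have hsh : ∀ l k : ℕ, ∀ᵐ y ∂μ, ‖Q l (sh k y)‖ ≤ 1 := fun l k =>
    (mp_sh h.stat (k : ℤ)).quasiMeasurePreserving.ae (hQb l)
  have hpos : ∀ l k : ℕ, 0 ≤ ∫ y, ‖Q l y‖ ^ 2 ∂μ - ∫ y, ‖Q (l + k) y‖ ^ 2 ∂μ := fun l k => by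
    rw [← pyth h.stat X q hq hq1 l k]
    exact integral_nonneg fun y => by positivity
  set a : ℕ → ℝ := fun l => ∫ y, ‖Q l y‖ ^ 2 ∂μ with ha
  have hanti : Antitone a := antitone_nat_of_succ_le fun l => by
    have := hpos l 1
    simp only [ha]; linarith
  have ha0 : BddBelow (Set.range a) := ⟨0, by
    rintro _ ⟨l, rfl⟩
    exact integral_nonneg fun y => by positivity⟩
  have hlim := tendsto_atTop_ciInf hanti ha0
  set t : ℝ := r * ε / 4 with ht
  have ht0 : 0 < t := by positivity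
  have hcau : ∀ᶠ l in atTop, a l < (⨅ i, a i) + t ^ 2 :=
    hlim.eventually (gt_mem_nhds (by linarith [pow_pos ht0 2]))
  have hr2 : ∀ᶠ l : ℕ in atTop, ∀ l' ≥ l, ∫ y, |‖Q l' y‖ - r| ∂μ < t := by
    obtain ⟨l0, hl0⟩ := eventually_atTop.1 (hr.eventually (gt_mem_nhds ht0))
    filter_upwards [eventually_ge_atTop l0] with l hl l' hl'
    exact hl0 l' (le_trans hl hl')
  have hca2 : ∀ᶠ l : ℕ in atTop, ∀ l' ≥ l, a l' < (⨅ i, a i) + t ^ 2 := by
    obtain ⟨l0, hl0⟩ := eventually_atTop.1 hcau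
    filter_upwards [eventually_ge_atTop l0] with l hl l' hl'
    exact hl0 l' (le_trans hl hl')
  obtain ⟨l, hl1, hl2⟩ := (hr2.and hca2).exists
  refine hno l (fun k y => nrm (Q (l + k) y)) (fun k => ?_) (fun k y => norm_nrm _) ?_
  · exact (measurable_nrm.comp (Qf_meas μ X q (l + k)).measurable).stronglyMeasurable
  intro j k
  -- the three functions
  set A1 : Sq b → ℝ := fun y => |‖Q (l + j) (sh k y)‖ - r| with hA1
  set A2 : Sq b → ℂ := fun y => e ((b : ℝ) ^ (l + j) * X * Bk k y) * Q (l + j) (sh k y) -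
    Q (l + j + k) y with hA2
  set A3 : Sq b → ℝ := fun y => |‖Q (l + j + k) y‖ - r| with hA3
  have hBm : Measurable fun y : Sq b => e ((b : ℝ) ^ (l + j) * X * Bk k y) :=
    measurable_e.comp (((measurable_Bk k).mono (past_le k) le_rfl).const_mul _)
  have m1 : Measurable A1 := ((((hQm _).comp (measurable_sh _)).norm).sub_const r).abs
  have m2 : Measurable A2 := (hBm.mul ((hQm _).comp (measurable_sh _))).sub (hQm _)
  have m3 : Measurable A3 := (((hQm _).norm).sub_const r).abs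
  have i1 : Integrable A1 μ := by
    refine Integrable.of_bound m1.aestronglyMeasurable (1 + r) ?_
    filter_upwards [hsh (l + j) k] with y hy
    rw [Real.norm_eq_abs, abs_abs]
    exact (abs_sub _ _).trans (by rw [abs_norm, abs_of_pos hr1]; linarith)
  have i3 : Integrable A3 μ := by
    refine Integrable.of_bound m3.aestronglyMeasurable (1 + r) ?_
    filter_upwards [hQb (l + j + k)] with y hy
    rw [Real.norm_eq_abs, abs_abs]
    exact (abs_sub _ _).trans (by rw [abs_norm, abs_of_pos hr1]; linarith)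
  have hA2b : ∀ᵐ y ∂μ, ‖A2 y‖ ≤ 2 := by
    filter_upwards [hsh (l + j) k, hQb (l + j + k)] with y hy1 hy2
    refine (norm_sub_le _ _).trans ?_
    rw [norm_mul, norm_e, one_mul]
    linarith
  have i2 : Integrable (fun y => ‖A2 y‖) μ := by
    refine Integrable.of_bound m2.norm.aestronglyMeasurable 2 ?_
    filter_upwards [hA2b] with y hy
    rwa [norm_norm]
  have i2' : Integrable (fun y => ‖A2 y‖ ^ 2) μ := by
    refine Integrable.of_bound (m2.norm.pow_const 2).aestronglyMeasurable 4 ?_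
    filter_upwards [hA2b] with y hy
    rw [Real.norm_eq_abs, abs_of_nonneg (by positivity)]
    nlinarith [norm_nonneg (A2 y)]
  have b1 : ∫ y, A1 y ∂μ ≤ t := by
    have e2 := (mp_sh h.stat (k : ℤ)).integral_comp
      (shEquiv (b := b) (k : ℤ)).measurableEmbedding (fun y => |‖Q (l + j) y‖ - r|)
    rw [hA1, e2]
    exact (hl1 (l + j) (by omega)).le
  have b3 : ∫ y, A3 y ∂μ ≤ t := (hl1 (l + j + k) (by omega)).le
  have b2 : ∫ y, ‖A2 y‖ ∂μ ≤ t := by
    have h1 : ∫ y, ‖A2 y‖ ^ 2 ∂μ ≤ t ^ 2 := by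
      have h2 := pyth h.stat X q hq hq1 (l + j) k
      have h3 : ∫ y, ‖A2 y‖ ^ 2 ∂μ = a (l + j) - a (l + j + k) := h2
      rw [h3]
      have h4 := hl2 (l + j) (by omega)
      have h5 := ciInf_le ha0 (l + j + k)
      linarith
    have h6 : ∫ y, ‖A2 y‖ ∂μ ≤ ∫ y, (t / 2 + ‖A2 y‖ ^ 2 / (2 * t)) ∂μ := by
      refine integral_mono i2 ((integrable_const _).add (i2'.div_const _)) fun y => ?_
      have h7 : t / 2 + ‖A2 y‖ ^ 2 / (2 * t) - ‖A2 y‖ = (‖A2 y‖ - t) ^ 2 / (2 * t) := by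
        field_simp; ring
      have h8 : 0 ≤ (‖A2 y‖ - t) ^ 2 / (2 * t) := by positivity
      simp only
      linarith
    have h11 : ∫ y, ‖A2 y‖ ^ 2 / (2 * t) ∂μ = (∫ y, ‖A2 y‖ ^ 2 ∂μ) / (2 * t) := integral_div _ _
    rw [integral_add (integrable_const _) (i2'.div_const _), h11] at h6
    simp only [integral_const, probReal_univ, smul_eq_mul, one_mul] at h6
    have h9 : (∫ y, ‖A2 y‖ ^ 2 ∂μ) / (2 * t) ≤ t ^ 2 / (2 * t) := by gcongr
    have h10 : t ^ 2 / (2 * t) = t / 2 := by field_simp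
    linarith
  have hbound : ∫ y, ‖e ((b : ℝ) ^ (l + j) * X * Bk k y) * nrm (Q (l + j) (sh k y)) -
      nrm (Q (l + (j + k)) y)‖ ∂μ ≤ ∫ y, (A1 y + ‖A2 y‖ + A3 y) / r ∂μ := by
    refine integral_mono ?_ (((i1.add i2).add i3).div_const r) fun y => ?_
    · refine Integrable.of_bound (C := 2) ?_ (Eventually.of_forall fun y => ?_)
      · exact (((hBm.mul (measurable_nrm.comp ((hQm _).comp (measurable_sh _)))).sub
          (measurable_nrm.comp (hQm _))).norm).aestronglyMeasurable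
      · rw [norm_norm]
        refine (norm_sub_le _ _).trans ?_
        rw [norm_mul, norm_e, norm_nrm, norm_nrm]; norm_num
    · have := nrm_diff hr1 (e ((b : ℝ) ^ (l + j) * X * Bk k y)) (Q (l + j) (sh k y))
        (Q (l + (j + k)) y) (norm_e _)
      simp only [hA1, hA2, hA3]
      rw [add_assoc l j k]
      exact this
  refine hbound.trans ?_
  have j1 : Integrable (fun y => A1 y + ‖A2 y‖) μ := i1.add i2
  rw [integral_div, integral_add j1 i3, integral_add i1 i2, div_le_iff₀ hr1]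
  have : ε * r = 4 * t := by rw [ht]; ring
  linarith

end Pool.Agent.Helper5.KM
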